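import Pool.Agent.W761.Box.Main

/-!
# Box averages: fibres, dyadic comparison, strips
-/

set_option autoImplicit false

open Filter Topology MeasureTheory

noncomputable section

namespace Pool.Agent.Zk89.KS

open Pool.Agent.W761.Box

variable {k : ℕ}

theorem sum_fiber {β : Type*} [AddCommMonoid β] (i : Fin k) (N : Fin k → ℕ)
    (a : (Fin k → ℕ) → β) :
    ∑ m ∈ Fintype.piFinset (fun j => Finset.range (N j)), a m =
      ∑ m ∈ Fintype.piFinset (fun j => Finset.range (Function.update N i 1 j)),
        ∑ t ∈ Finset.range (N i), a (Function.update m i t) := by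
  rw [← Finset.sum_product']
  refine Finset.sum_bij' (fun m _ => (Function.update m i 0, m i))
    (fun p _ => Function.update p.1 i p.2) ?_ ?_ ?_ ?_ ?_
  · intro m hm
    rw [Fintype.mem_piFinset] at hm
    rw [Finset.mem_product, Fintype.mem_piFinset]
    refine ⟨fun j => ?_, hm i⟩
    by_cases hj : j = i
    · subst hj
      simp
    · have := hm j
      simpa [Function.update_of_ne hj] using this
  · intro p hp
    rw [Finset.mem_product, Fintype.mem_piFinset] at hp
    rw [Fintype.mem_piFinset]
    intro j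
    by_cases hj : j = i
    · subst hj
      rw [Function.update_self]
      exact hp.2
    · have := hp.1 j
      rw [Function.update_of_ne hj] at this
      rwa [Function.update_of_ne hj]
  · intro m _
    simp
  · intro p hp
    rw [Finset.mem_product, Fintype.mem_piFinset] at hp
    have h1 : p.1 i = 0 := by
      have := hp.1 i
      rw [Function.update_self, Finset.mem_range] at this
      omega
    have h2 : Function.update p.1 i 0 = p.1 := by
      rw [← h1, Function.update_eq_self]
    simp [h2]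
  · intro m _
    simp

theorem prod_update_one (i : Fin k) (N : Fin k → ℕ) :
    ∏ j, (N j : ℝ) = (N i : ℝ) * ∏ j, (Function.update N i 1 j : ℝ) := by
  rw [← Finset.mul_prod_erase _ (fun j => (N j : ℝ)) (Finset.mem_univ i),
    ← Finset.mul_prod_erase _ (fun j => ((Function.update N i 1 j : ℕ) : ℝ)) (Finset.mem_univ i)]
  simp only [Function.update_self, Nat.cast_one, one_mul]
  congr 1
  refine Finset.prod_congr rfl fun j hj => ?_
  rw [Function.update_of_ne (Finset.ne_of_mem_erase hj)]

theorem bx_fiber (i : Fin k) (N : Fin k → ℕ) (a : (Fin k → ℕ) → ℝ) :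
    bx k N a = bx k (Function.update N i 1) (fun m => (N i : ℝ)⁻¹ *
      ∑ t ∈ Finset.range (N i), a (Function.update m i t)) := by
  rw [bx, bx, prod_update_one i N, sum_fiber i N a, ← Finset.mul_sum, mul_inv]
  ring

theorem bx_avg (i : Fin k) (N : Fin k → ℕ) (a : (Fin k → ℕ) → ℝ) :
    bx k N a = bx k N (fun m => (N i : ℝ)⁻¹ *
      ∑ t ∈ Finset.range (N i), a (Function.update m i t)) := by
  conv_lhs => rw [bx_fiber i N a]
  conv_rhs => rw [bx_fiber i N]
  congr 1
  funext m
  simp only [Function.update_idem]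
  rw [Finset.sum_const, Finset.card_range, nsmul_eq_mul]
  rcases Nat.eq_zero_or_pos (N i) with h | h
  · simp [h]
  · have : (N i : ℝ) ≠ 0 := by positivity
    field_simp

theorem bx_indep (i : Fin k) {N : Fin k → ℕ} (hN : 0 < N i) {q : (Fin k → ℕ) → ℝ}
    (hq : ∀ m t, q (Function.update m i t) = q m) : bx k N q = bx k (Function.update N i 1) q := by
  rw [bx_fiber i N q]
  congr 1
  funext m
  simp only [hq]
  rw [Finset.sum_const, Finset.card_range, nsmul_eq_mul, ← mul_assoc, inv_mul_cancel₀, one_mul]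
  positivity

open Classical in
theorem bx_indep_set {N : Fin k → ℕ} (hN : ∀ i, 0 < N i) {q : (Fin k → ℕ) → ℝ} (S : Finset (Fin k))
    (hq : ∀ i ∈ S, ∀ m t, q (Function.update m i t) = q m) :
    bx k N q = bx k (fun i => if i ∈ S then 1 else N i) q := by
  induction S using Finset.induction_on with
  | empty => simp
  | insert i S hi ih =>
    rw [ih fun l hl => hq l (Finset.mem_insert_of_mem hl)]
    have h0 : 0 < (fun l => if l ∈ S then 1 else N l) i := by
      simp only [hi, if_false]
      exact hN i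
    rw [bx_indep i h0 (hq i (Finset.mem_insert_self _ _))]
    congr 1
    funext l
    by_cases hl : l = i
    · subst hl
      simp
    · simp [Function.update_of_ne hl, hl]

theorem bx_dyadic {N M : Fin k → ℕ} (hN : ∀ i, 0 < N i) (h1 : ∀ i, N i ≤ M i)
    (h2 : ∀ i, M i ≤ 2 * N i) {q : (Fin k → ℕ) → ℝ} (hq : ∀ m, 0 ≤ q m) :
    bx k N q ≤ 2 ^ k * bx k M q := by
  have hM : ∀ i, 0 < M i := fun i => (hN i).trans_le (h1 i)
  have hPN : 0 < ∏ j, (N j : ℝ) := Finset.prod_pos fun i _ => by exact_mod_cast hN i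
  have hPM : 0 < ∏ j, (M j : ℝ) := Finset.prod_pos fun i _ => by exact_mod_cast hM i
  have hP : ∏ j, (M j : ℝ) ≤ 2 ^ k * ∏ j, (N j : ℝ) := by
    calc ∏ j, (M j : ℝ) ≤ ∏ j, (2 * (N j : ℝ)) :=
          Finset.prod_le_prod (fun i _ => by positivity) fun i _ => by exact_mod_cast h2 i
      _ = 2 ^ k * ∏ j, (N j : ℝ) := by
          rw [Finset.prod_mul_distrib, Finset.prod_const, Finset.card_univ, Fintype.card_fin]
  have hS : ∑ m ∈ Fintype.piFinset (fun j => Finset.range (N j)), q m ≤
      ∑ m ∈ Fintype.piFinset (fun j => Finset.range (M j)), q m := by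
    refine Finset.sum_le_sum_of_subset_of_nonneg ?_ fun m _ _ => hq m
    refine Fintype.piFinset_subset _ _ fun i => ?_
    exact Finset.range_subset_range.2 (h1 i)
  have hS0 : 0 ≤ ∑ m ∈ Fintype.piFinset (fun j => Finset.range (M j)), q m :=
    Finset.sum_nonneg fun m _ => hq m
  rw [bx, bx]
  calc (∏ j, (N j : ℝ))⁻¹ * ∑ m ∈ Fintype.piFinset (fun j => Finset.range (N j)), q m
      ≤ (∏ j, (N j : ℝ))⁻¹ * ∑ m ∈ Fintype.piFinset (fun j => Finset.range (M j)), q m := by
        gcongr
    _ ≤ (2 ^ k * (∏ j, (M j : ℝ))⁻¹) * ∑ m ∈ Fintype.piFinset (fun j => Finset.range (M j)), q m := by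
        gcongr
        rw [inv_le_comm₀ hPN (by positivity), mul_inv, inv_inv]
        rw [inv_mul_le_iff₀ (by positivity)]
        exact hP
    _ = _ := by ring

/-- Number of terms of an arithmetic progression in an interval. -/
theorem card_strip (n : ℕ) (c v D : ℝ) (hv : v ≠ 0) (hD : 0 ≤ D) :
    (((Finset.range n).filter fun t : ℕ => |c + t * v| < D).card : ℝ) ≤ 2 * D / |v| + 1 := by
  set S := (Finset.range n).filter fun t : ℕ => |c + t * v| < D with hS
  rcases S.eq_empty_or_nonempty with h | h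
  · rw [h]
    simp only [Finset.card_empty, Nat.cast_zero]
    positivity
  set t0 := S.min' h with ht0
  have h0 : t0 ∈ S := S.min'_mem h
  have hv' : 0 < |v| := abs_pos.2 hv
  have hsub : S ⊆ Finset.Icc t0 (t0 + ⌊2 * D / |v|⌋₊) := by
    intro t ht
    rw [Finset.mem_Icc]
    have hle : t0 ≤ t := S.min'_le t ht
    refine ⟨hle, ?_⟩
    have h1 := (Finset.mem_filter.1 ht).2
    have h2 := (Finset.mem_filter.1 h0).2
    have h3 : ((t - t0 : ℕ) : ℝ) ≤ 2 * D / |v| := by
      rw [le_div_iff₀ hv', Nat.cast_sub hle]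
      have h4 : |((t : ℝ) - t0) * v| ≤ 2 * D := by
        have e : ((t : ℝ) - t0) * v = (c + t * v) - (c + t0 * v) := by ring
        rw [e]
        refine (abs_sub _ _).trans ?_
        linarith
      rwa [abs_mul, abs_of_nonneg (by
        have : (t0 : ℝ) ≤ t := by exact_mod_cast hle
        linarith)] at h4
    have h5 := Nat.le_floor h3
    omega
  have h6 := Finset.card_le_card hsub
  rw [Nat.card_Icc] at h6
  have h7 : (S.card : ℝ) ≤ (⌊2 * D / |v|⌋₊ : ℝ) + 1 := by
    have : S.card ≤ ⌊2 * D / |v|⌋₊ + 1 := by omega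
    exact_mod_cast this
  have h8 := Nat.floor_le (show (0 : ℝ) ≤ 2 * D / |v| by positivity)
  linarith

/-- The proportion of a strip in a box. -/
theorem bx_strip {N : Fin k → ℕ} (c D : ℝ) (v : Fin k → ℝ) (i : Fin k) (hv : v i ≠ 0) (hD : 0 ≤ D) :
    bx k N (fun m => if |c + ∑ l, (m l : ℝ) * v l| < D then 1 else 0) ≤
      (N i : ℝ)⁻¹ * (2 * D / |v i| + 1) := by
  rw [bx_fiber i]
  refine (bx_mono (b := fun _ => (N i : ℝ)⁻¹ * (2 * D / |v i| + 1)) fun m => ?_).trans
    (bx_const_le (by positivity))
  refine mul_le_mul_of_nonneg_left ?_ (by positivity)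
  have h1 : ∀ t : ℕ, c + ∑ l, ((Function.update m i t l : ℕ) : ℝ) * v l =
      (c + ∑ l ∈ Finset.univ.erase i, (m l : ℝ) * v l) + t * v i := by
    intro t
    rw [← Finset.add_sum_erase _ _ (Finset.mem_univ i), Function.update_self]
    have : ∑ l ∈ Finset.univ.erase i, ((Function.update m i t l : ℕ) : ℝ) * v l =
        ∑ l ∈ Finset.univ.erase i, (m l : ℝ) * v l :=
      Finset.sum_congr rfl fun l hl => by rw [Function.update_of_ne (Finset.ne_of_mem_erase hl)]
    rw [this]
    ring
  simp only [h1]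
  rw [Finset.sum_ite, Finset.sum_const_zero, add_zero, Finset.sum_const, nsmul_eq_mul, mul_one]
  exact card_strip _ _ _ _ hv hD

end Pool.Agent.Zk89.KS
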