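import Pool.Agent.Zk89.KS.Orth

/-!
# Box averages of products of functions of finite range tend to zero
-/

set_option autoImplicit false

open Filter Topology MeasureTheory

noncomputable section

namespace Pool.Agent.Zk89.KS

open Pool.Agent.W761.Box

theorem avg_diff {y : ℕ → ℝ} (hy : ∀ t, |y t| ≤ 1) {n n' : ℕ} (hn' : 0 < n') (hnn : n' ≤ n) :
    |(n : ℝ)⁻¹ * ∑ t ∈ Finset.range n, y t - (n' : ℝ)⁻¹ * ∑ t ∈ Finset.range n', y t| ≤
      2 * ((n - n') / n) := by
  have h0 : (0 : ℝ) < n' := by exact_mod_cast hn'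
  have h1 : (n' : ℝ) ≤ n := by exact_mod_cast hnn
  have h2 : (0 : ℝ) < n := by linarith
  have e1 : ∑ t ∈ Finset.range n, y t = ∑ t ∈ Finset.range n', y t +
      ∑ t ∈ Finset.Ico n' n, y t := (Finset.sum_range_add_sum_Ico _ hnn).symm
  have b1 : |∑ t ∈ Finset.range n', y t| ≤ n' := by
    refine (Finset.abs_sum_le_sum_abs _ _).trans ?_
    refine (Finset.sum_le_sum fun t _ => hy t).trans ?_
    simp
  have b2 : |∑ t ∈ Finset.Ico n' n, y t| ≤ n - n' := by
    refine (Finset.abs_sum_le_sum_abs _ _).trans ?_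
    refine (Finset.sum_le_sum fun t _ => hy t).trans ?_
    rw [Finset.sum_const, Nat.card_Ico, nsmul_eq_mul, mul_one, Nat.cast_sub hnn]
  have e2 : (n : ℝ)⁻¹ * ∑ t ∈ Finset.range n, y t - (n' : ℝ)⁻¹ * ∑ t ∈ Finset.range n', y t =
      ((n : ℝ)⁻¹ - (n' : ℝ)⁻¹) * ∑ t ∈ Finset.range n', y t +
      (n : ℝ)⁻¹ * ∑ t ∈ Finset.Ico n' n, y t := by
    rw [e1]
    ring
  rw [e2]
  refine (abs_add_le _ _).trans ?_
  rw [abs_mul, abs_mul]
  have e3 : |(n : ℝ)⁻¹ - (n' : ℝ)⁻¹| = (n - n') / (n * n') := by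
    rw [abs_of_nonpos]
    · field_simp
      ring
    · have := inv_anti₀ h0 h1
      linarith
  rw [e3, abs_of_nonneg (inv_nonneg.2 h2.le)]
  calc (n - n') / (n * n') * |∑ t ∈ Finset.range n', y t| + (n : ℝ)⁻¹ * |∑ t ∈ Finset.Ico n' n, y t|
      ≤ (n - n') / (n * n') * n' + (n : ℝ)⁻¹ * (n - n') := by
        have : (0 : ℝ) ≤ (n - n') / (n * n') := div_nonneg (by linarith) (by positivity)
        gcongr
    _ = 2 * ((n - n') / n) := by
        field_simp
        ring

theorem ratio_le (p l n : ℕ) (h1 : (l + 1) ^ p ≤ n) (h2 : n < (l + 2) ^ p) :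
    2 * (((n : ℝ) - ((l + 1) ^ p : ℕ)) / n) ≤ 2 * p / (l + 2) := by
  have hl : (0 : ℝ) < (l : ℝ) + 2 := by positivity
  have hn : (0 : ℝ) < n := by
    have : 0 < (l + 1) ^ p := by positivity
    exact_mod_cast this.trans_le h1
  have h3 : (n : ℝ) ≤ ((l : ℝ) + 2) ^ p := by exact_mod_cast h2.le
  have h4 : 1 - (p : ℝ) / (l + 2) ≤ (((l : ℝ) + 1) / (l + 2)) ^ p := by
    have h5 := one_add_mul_le_pow (a := -(1 / ((l : ℝ) + 2))) (by
      have : 1 / ((l : ℝ) + 2) ≤ 1 := by
        rw [div_le_one hl]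
        linarith
      linarith) p
    have e : 1 + -(1 / ((l : ℝ) + 2)) = ((l : ℝ) + 1) / (l + 2) := by
      field_simp
      ring
    rw [e] at h5
    refine le_trans (le_of_eq ?_) h5
    ring
  have h6 : 1 - (p : ℝ) / (l + 2) ≤ (((l + 1) ^ p : ℕ) : ℝ) / n := by
    refine h4.trans ?_
    rw [div_pow]
    push_cast
    gcongr
  have e : ((n : ℝ) - ((l + 1) ^ p : ℕ)) / n = 1 - (((l + 1) ^ p : ℕ) : ℝ) / n := by
    field_simp
  rw [e]
  have e2 : 2 * (p : ℝ) / (l + 2) = 2 * (p / (l + 2)) := by ring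
  rw [e2]
  linarith

/-- Nonnegative functions with summable integrals tend to zero almost everywhere. -/
theorem ae_tendsto_zero {X : Type*} [MeasurableSpace X] {μ : Measure X} {f : ℕ → X → ℝ}
    (hf : ∀ l, Measurable (f l)) (h0 : ∀ l x, 0 ≤ f l x) (hi : ∀ l, Integrable (f l) μ)
    {c : ℕ → ℝ} (hc : ∀ l, ∫ x, f l x ∂μ ≤ c l) (hs : Summable c) :
    ∀ᵐ x ∂μ, Tendsto (fun l => f l x) atTop (𝓝 0) := by
  have h1 : ∑' l, ∫⁻ x, ENNReal.ofReal (f l x) ∂μ ≠ ⊤ := by
    have h2 : ∀ l, ∫⁻ x, ENNReal.ofReal (f l x) ∂μ ≤ ENNReal.ofReal (c l) := by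
      intro l
      rw [← ofReal_integral_eq_lintegral_ofReal (hi l) (Eventually.of_forall (h0 l))]
      exact ENNReal.ofReal_le_ofReal (hc l)
    refine ne_top_of_le_ne_top ?_ (ENNReal.tsum_le_tsum h2)
    exact hs.tsum_ofReal_ne_top
  rw [← lintegral_tsum fun l => (hf l).ennreal_ofReal.aemeasurable] at h1
  have h3 := ae_lt_top' (AEMeasurable.tsum fun l => (hf l).ennreal_ofReal.aemeasurable) h1
  filter_upwards [h3] with x hx
  have h4 := ENNReal.tendsto_atTop_zero_of_tsum_ne_top hx.ne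
  have h5 := (ENNReal.tendsto_toReal (ENNReal.zero_ne_top)).comp h4
  simp only [ENNReal.toReal_zero] at h5
  refine h5.congr fun l => ?_
  rw [Function.comp_apply, ENNReal.toReal_ofReal (h0 l x)]

theorem tendsto_coord {k : ℕ} (i : Fin k) : Tendsto (fun N : Fin k → ℕ => N i) atTop atTop :=
  tendsto_atTop.2 fun b => eventually_atTop.2 ⟨fun _ => b, fun _ hN => hN i⟩

variable {X : Type*} [m0 : MeasurableSpace X] {μ : Measure X} [IsProbabilityMeasure μ]
  {F : ℝ → MeasurableSpace X}

/-- **Products of functions of finite range.** -/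
theorem null_core {J : Type*} [DecidableEq J] (hle : ∀ s, F s ≤ m0) (hmono : Monotone F)
    {a b : ℝ} {k : ℕ} (S : Finset J) (hS : S.Nonempty) (v : J → Fin k → ℝ) (c : J → ℝ)
    (hv0 : ∀ j ∈ S, v j ≠ 0) (hv : ∀ j ∈ S, ∀ j' ∈ S, j ≠ j' → v j ≠ v j')
    (u : J → (Fin k → ℕ) → X → ℝ)
    (hu : ∀ j ∈ S, ∀ m : Fin k → ℕ, FR μ F (a + (c j + ∑ l, (m l : ℝ) * v j l))
      (b + (c j + ∑ l, (m l : ℝ) * v j l)) (u j m))
    (hind : ∀ j ∈ S, ∀ l, v j l = 0 → ∀ m t, u j (Function.update m l t) = u j m)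
    (w : (Fin k → ℕ) → X → ℝ) (hw : ∀ m s, Measurable[F s] (w m)) (hw1 : ∀ m x, |w m x| ≤ 1)
    (hwind : ∀ l, (∀ j ∈ S, v j l = 0) → ∀ m t, w (Function.update m l t) = w m) :
    ∀ᵐ x ∂μ, Tendsto (fun N => bx k N fun m => w m x * ∏ j ∈ S, u j m x) atTop (𝓝 0) := by
  classical
  set D : ℝ := max (b - a) 1 with hDdef
  have hD : 0 < D := lt_of_lt_of_le one_pos (le_max_right _ _)
  have hab : b - a ≤ D := le_max_left _ _
  set ψ : J → (Fin k → ℕ) → ℝ := fun j m => c j + ∑ l, (m l : ℝ) * v j l with hψ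
  have hψu : ∀ j m i (t : ℕ), ψ j (Function.update m i t) = ψ j (Function.update m i 0) + t * v j i := by
    intro j m i t
    simp only [hψ]
    rw [← Finset.add_sum_erase _ _ (Finset.mem_univ i),
      ← Finset.add_sum_erase (a := i) _ (fun l => ((Function.update m i 0 l : ℕ) : ℝ) * v j l)
        (Finset.mem_univ i)]
    simp only [Function.update_self]
    have : ∑ l ∈ Finset.univ.erase i, ((Function.update m i t l : ℕ) : ℝ) * v j l =
        ∑ l ∈ Finset.univ.erase i, ((Function.update m i 0 l : ℕ) : ℝ) * v j l :=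
      Finset.sum_congr rfl fun l hl => by
        rw [Function.update_of_ne (Finset.ne_of_mem_erase hl),
          Function.update_of_ne (Finset.ne_of_mem_erase hl)]
    rw [this]
    push_cast
    ring
  have hψ0 : ∀ j m i, v j i = 0 → ∀ t : ℕ, ψ j (Function.update m i t) = ψ j m := by
    intro j m i hvi t
    have h1 := hψu j m i t
    have h2 := hψu j m i (m i)
    rw [Function.update_eq_self] at h2
    rw [h1, h2, hvi]
    ring
  have hψd : ∀ j j' m i, v j i = v j' i → ∀ t : ℕ,
      ψ j (Function.update m i t) - ψ j' (Function.update m i t) = ψ j m - ψ j' m := by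
    intro j j' m i hvi t
    have h1 := hψu j m i t
    have h2 := hψu j m i (m i)
    have h3 := hψu j' m i t
    have h4 := hψu j' m i (m i)
    rw [Function.update_eq_self] at h2 h4
    rw [h1, h2, h3, h4, hvi]
    ring
  set S1 : Fin k → Finset J := fun i => S.filter fun j => v j i ≠ 0 with hS1
  set y : Fin k → (Fin k → ℕ) → X → ℝ := fun i m x => w m x * ∏ j ∈ S1 i, u j m x with hy
  have hy1 : ∀ i m x, |y i m x| ≤ 1 := by
    intro i m x
    simp only [hy]
    rw [abs_mul, Finset.abs_prod]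
    refine mul_le_one₀ (hw1 m x) (Finset.prod_nonneg fun l _ => abs_nonneg _)
      (Finset.prod_le_one (fun l _ => abs_nonneg _) fun l hl => ?_)
    exact (hu l (Finset.mem_of_mem_filter l hl) m).bdd x
  have hym : ∀ i m, Measurable (y i m) := by
    intro i m
    refine ((hw m 0).mono (hle 0) le_rfl).mul (Finset.measurable_prod _ fun l hl => ?_)
    exact (hu l (Finset.mem_of_mem_filter l hl) m).meas.mono (hle _) le_rfl
  set B : Fin k → ℕ → (Fin k → ℕ) → X → ℝ := fun i n m x =>
    (n : ℝ)⁻¹ * ∑ t ∈ Finset.range n, y i (Function.update m i t) x with hB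
  have hBm : ∀ i n m, Measurable (B i n m) := fun i n m =>
    (Finset.measurable_sum _ fun t _ => hym i _).const_mul _
  have hB1 : ∀ i n m x, |B i n m x| ≤ 1 := by
    intro i n m x
    simp only [hB]
    rcases Nat.eq_zero_or_pos n with rfl | hn
    · simp
    rw [abs_mul, abs_of_nonneg (by positivity), inv_mul_le_iff₀ (by exact_mod_cast hn)]
    refine (Finset.abs_sum_le_sum_abs _ _).trans ?_
    refine (Finset.sum_le_sum fun t _ => hy1 i _ x).trans ?_
    simp
  set R : Fin k → (Fin k → ℕ) → Prop := fun i m => ∃ j ∈ S1 i, ∃ j' ∈ S1 i, j ≠ j' ∧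
    v j i = v j' i ∧ |ψ j m - ψ j' m| < D with hR
  set q : Fin k → ℕ → (Fin k → ℕ) → X → ℝ := fun i n m x =>
    if R i m then 0 else (B i n m x) ^ 2 with hq
  have hq0 : ∀ i n m x, 0 ≤ q i n m x := by
    intro i n m x
    simp only [hq]
    split_ifs
    · exact le_rfl
    · positivity
  have hqm : ∀ i n m, Measurable (q i n m) := by
    intro i n m
    by_cases h : R i m
    · simp only [hq, if_pos h]
      exact measurable_const
    · simp only [hq, if_neg h]
      exact (hBm i n m).pow_const 2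
  have hq1 : ∀ i n m x, |q i n m x| ≤ 1 := by
    intro i n m x
    simp only [hq]
    split_ifs
    · simp
    · rw [abs_of_nonneg (by positivity), ← sq_abs]
      exact pow_le_one₀ (abs_nonneg _) (hB1 i n m x)
  have hqi : ∀ i n m, Integrable (q i n m) μ := fun i n m =>
    Integrable.of_bound (hqm i n m).aestronglyMeasurable 1
      (Eventually.of_forall fun x => by rw [Real.norm_eq_abs]; exact hq1 i n m x)
  set Λ : Finset (Fin k) := Finset.univ.filter fun i => (S1 i).Nonempty with hΛ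
  -- the second moment
  obtain ⟨C, hC0, hqint⟩ : ∃ C : ℝ, 0 ≤ C ∧ ∀ i ∈ Λ, ∀ n m, ∫ x, q i n m x ∂μ ≤ (n : ℝ)⁻¹ * C := by
    refine ⟨∑ i, cst (fun j : S1 i => v j i) D, Finset.sum_nonneg fun i _ => cst_nonneg _ hD.le, ?_⟩
    intro i hi n m
    have hCi : cst (fun j : S1 i => v j i) D ≤ ∑ i, cst (fun j : S1 i => v j i) D :=
      Finset.single_le_sum (f := fun i => cst (fun j : S1 i => v j i) D)
        (fun i _ => cst_nonneg _ hD.le) (Finset.mem_univ i)
    have hn0 : (0 : ℝ) ≤ (n : ℝ)⁻¹ := by positivity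
    by_cases hRm : R i m
    · simp only [hq, if_pos hRm, integral_zero]
      have := cst_nonneg (fun j : S1 i => v j i) hD.le
      exact mul_nonneg hn0 (this.trans hCi)
    · simp only [hq, if_neg hRm]
      refine le_trans ?_ (mul_le_mul_of_nonneg_left hCi hn0)
      have hne : Nonempty (S1 i) := by
        obtain ⟨j, hj⟩ := (Finset.mem_filter.1 hi).2
        exact ⟨⟨j, hj⟩⟩
      have hmem : ∀ j : S1 i, (j : J) ∈ S := fun j => Finset.mem_of_mem_filter _ j.2
      have key := one_par (μ := μ) (ι := S1 i) hle hmono hab hD (v := fun j => v j i)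
        (o := fun j => ψ j (Function.update m i 0))
        (fun j => (Finset.mem_filter.1 j.2).2)
        (by
          intro j j' hjj hvv
          by_contra hlt
          apply hRm
          refine ⟨j, j.2, j', j'.2, fun e => hjj (Subtype.ext e), hvv, ?_⟩
          rw [← hψd j j' m i hvv 0]
          exact not_le.1 hlt)
        (u := fun j t => u j (Function.update m i t))
        (by
          intro j t
          have h1 := hu j (hmem j) (Function.update m i t)
          have h2 := hψu j m i t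
          simp only [hψ] at h2 ⊢
          rw [h2] at h1
          exact h1)
        (w := fun t => w (Function.update m i t)) (fun t s => hw _ s) (fun t x => hw1 _ x) n
      refine le_trans (le_of_eq ?_) key
      congr 1
      funext x
      simp only [hB, hy]
      congr 2
      refine Finset.sum_congr rfl fun t _ => ?_
      congr 1
      exact (Finset.prod_coe_sort (S1 i) (fun j => u j (Function.update m i t) x)).symm
  -- independence
  have hRi : ∀ i m l (t : ℕ), (l = i ∨ ∀ j ∈ S, v j l = 0) → (R i (Function.update m l t) ↔ R i m) := by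
    intro i m l t hl
    have h1 : ∀ j ∈ S1 i, ∀ j' ∈ S1 i, v j i = v j' i →
        ψ j (Function.update m l t) - ψ j' (Function.update m l t) = ψ j m - ψ j' m := by
      intro j hj j' hj' hvv
      rcases hl with rfl | hl
      · exact hψd j j' m l hvv t
      · rw [hψ0 j m l (hl j (Finset.mem_of_mem_filter j hj)) t,
          hψ0 j' m l (hl j' (Finset.mem_of_mem_filter j' hj')) t]
    constructor
    · rintro ⟨j, hj, j', hj', h2, h3, h4⟩
      rw [h1 j hj j' hj' h3] at h4
      exact ⟨j, hj, j', hj', h2, h3, h4⟩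
    · rintro ⟨j, hj, j', hj', h2, h3, h4⟩
      rw [← h1 j hj j' hj' h3] at h4
      exact ⟨j, hj, j', hj', h2, h3, h4⟩
  have hyi : ∀ i m l (t : ℕ), (∀ j ∈ S, v j l = 0) → y i (Function.update m l t) = y i m := by
    intro i m l t hl
    funext x
    simp only [hy]
    rw [hwind l hl m t]
    congr 1
    refine Finset.prod_congr rfl fun j hj => ?_
    rw [hind j (Finset.mem_of_mem_filter j hj) l (hl j (Finset.mem_of_mem_filter j hj)) m t]
  have hBi : ∀ i ∈ Λ, ∀ n m l (t : ℕ), l ∉ Λ → B i n (Function.update m l t) = B i n m := by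
    intro i hi n m l t hl
    have hli : l ≠ i := fun e => hl (e ▸ hi)
    have hl0 : ∀ j ∈ S, v j l = 0 := by
      intro j hj
      by_contra hcon
      apply hl
      rw [hΛ, Finset.mem_filter]
      exact ⟨Finset.mem_univ _, j, Finset.mem_filter.2 ⟨hj, hcon⟩⟩
    funext x
    simp only [hB]
    congr 1
    refine Finset.sum_congr rfl fun s _ => ?_
    rw [Function.update_comm hli, hyi i _ l t hl0]
  have hqi' : ∀ i ∈ Λ, ∀ n m l (t : ℕ) x, l ∉ Λ → q i n (Function.update m l t) x = q i n m x := by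
    intro i hi n m l t x hl
    have hl0 : ∀ j ∈ S, v j l = 0 := by
      intro j hj
      by_contra hcon
      apply hl
      rw [hΛ, Finset.mem_filter]
      exact ⟨Finset.mem_univ _, j, Finset.mem_filter.2 ⟨hj, hcon⟩⟩
    simp only [hq]
    rw [hBi i hi n m l t hl]
    simp only [hRi i m l t (Or.inr hl0)]
  -- the sums over dyadic boxes
  set p : ℕ := k + 2 with hp
  set E : ℕ → ℕ := fun l => p * (l + 2) + 2 with hE
  set Z : Fin k → ℕ → X → ℝ := fun i l x =>
    ∑ e ∈ Fintype.piFinset (fun _ : Fin k => Finset.range (E l)),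
      bx k (fun r => 2 ^ (e r)) (fun m => q i ((l + 1) ^ p) m x) with hZ
  have hbxm : ∀ i n (M : Fin k → ℕ), Measurable fun x => bx k M fun m => q i n m x := by
    intro i n M
    unfold bx
    exact (Finset.measurable_sum _ fun m _ => hqm i n m).const_mul _
  have hbx1 : ∀ i n (M : Fin k → ℕ) x, |bx k M fun m => q i n m x| ≤ 1 := fun i n M x =>
    bx_bound zero_le_one fun m => hq1 i n m x
  have hbxi : ∀ i n (M : Fin k → ℕ), Integrable (fun x => bx k M fun m => q i n m x) μ :=
    fun i n M => Integrable.of_bound (hbxm i n M).aestronglyMeasurable 1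
      (Eventually.of_forall fun x => by rw [Real.norm_eq_abs]; exact hbx1 i n M x)
  have hbxint : ∀ i ∈ Λ, ∀ n (M : Fin k → ℕ), ∫ x, bx k M (fun m => q i n m x) ∂μ ≤ (n : ℝ)⁻¹ * C := by
    intro i hi n M
    have h1 : ∫ x, bx k M (fun m => q i n m x) ∂μ = bx k M fun m => ∫ x, q i n m x ∂μ := by
      unfold bx
      rw [integral_const_mul, integral_finsetSum _ fun m _ => hqi i n m]
    rw [h1]
    exact (bx_mono fun m => hqint i hi n m).trans (bx_const_le (by positivity))
  have hZae : ∀ i ∈ Λ, ∀ᵐ x ∂μ, Tendsto (fun l => Z i l x) atTop (𝓝 0) := by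
    intro i hi
    refine ae_tendsto_zero (c := fun l : ℕ => (((2 * p + 2 : ℕ) : ℝ) ^ k * C) * (1 / ((l : ℝ) + 1) ^ 2))
      ?_ ?_ ?_ ?_ ?_
    · intro l
      exact Finset.measurable_sum _ fun e _ => hbxm i _ _
    · intro l x
      exact Finset.sum_nonneg fun e _ => bx_nonneg fun m => hq0 i _ m x
    · intro l
      exact integrable_finsetSum _ fun e _ => hbxi i _ _
    · intro l
      simp only [hZ]
      rw [integral_finsetSum _ fun e _ => hbxi i _ _]
      refine (Finset.sum_le_sum fun e _ => hbxint i hi _ _).trans ?_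
      rw [Finset.sum_const, Fintype.card_piFinset, nsmul_eq_mul]
      simp only [Finset.card_range, Finset.prod_const, Finset.card_univ, Fintype.card_fin]
      push_cast
      have hl : (0 : ℝ) < (l : ℝ) + 1 := by positivity
      have h1 : ((E l : ℕ) : ℝ) ≤ ((2 * p + 2 : ℕ) : ℝ) * ((l : ℝ) + 1) := by
        simp only [hE]
        push_cast
        have : (0 : ℝ) ≤ (p : ℝ) := by positivity
        have hl0 : (0 : ℝ) ≤ (l : ℝ) := by positivity
        nlinarith
      have h2 : ((E l : ℕ) : ℝ) ^ k ≤ (((2 * p + 2 : ℕ) : ℝ) * ((l : ℝ) + 1)) ^ k := by gcongr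
      calc ((E l : ℕ) : ℝ) ^ k * ((((l : ℝ) + 1) ^ p)⁻¹ * C)
          ≤ (((2 * p + 2 : ℕ) : ℝ) * ((l : ℝ) + 1)) ^ k * ((((l : ℝ) + 1) ^ p)⁻¹ * C) := by
            gcongr
        _ = ((2 * (p : ℝ) + 2) ^ k * C) * (1 / ((l : ℝ) + 1) ^ 2) := by
            rw [hp, mul_pow, pow_add]
            push_cast
            field_simp
    · refine Summable.mul_left _ ?_
      have h1 := (summable_nat_add_iff 1).2 (Real.summable_one_div_nat_pow.2 (one_lt_two))
      refine h1.congr fun l => ?_
      push_cast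
      rfl
  have hZall : ∀ᵐ x ∂μ, ∀ i ∈ Λ, Tendsto (fun l => Z i l x) atTop (𝓝 0) := by
    rw [ae_all_iff]
    intro i
    by_cases hi : i ∈ Λ
    · filter_upwards [hZae i hi] with x hx _
      exact hx
    · exact Eventually.of_forall fun x h => absurd h hi
  -- the strips
  have hco : ∀ j ∈ S, ∀ j' ∈ S, j ≠ j' → ∃ l, v j l ≠ v j' l := fun j hj j' hj' hne =>
    Function.ne_iff.1 (hv j hj j' hj' hne)
  obtain ⟨r, hr0, hrR⟩ : ∃ r : (Fin k → ℕ) → ℝ, Tendsto r atTop (𝓝 0) ∧
      ∀ i N, bx k N (fun m => if R i m then 1 else 0) ≤ r N := by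
    let r1 : J → J → (Fin k → ℕ) → ℝ := fun j j' N =>
      if h : j ∈ S ∧ j' ∈ S ∧ j ≠ j' then
        (N (hco j h.1 j' h.2.1 h.2.2).choose : ℝ)⁻¹ *
          (2 * D / |v j (hco j h.1 j' h.2.1 h.2.2).choose - v j' (hco j h.1 j' h.2.1 h.2.2).choose| + 1)
      else 0
    have hr1 : ∀ j j', Tendsto (r1 j j') atTop (𝓝 0) := by
      intro j j'
      by_cases h : j ∈ S ∧ j' ∈ S ∧ j ≠ j'
      · simp only [r1, dif_pos h]
        have := (tendsto_inv_atTop_nhds_zero_nat (𝕜 := ℝ)).comp
          (tendsto_coord (hco j h.1 j' h.2.1 h.2.2).choose)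
        have h2 := this.mul_const (2 * D / |v j (hco j h.1 j' h.2.1 h.2.2).choose -
          v j' (hco j h.1 j' h.2.1 h.2.2).choose| + 1)
        rw [zero_mul] at h2
        exact h2
      · simp only [r1, dif_neg h]
        exact tendsto_const_nhds
    refine ⟨fun N => ∑ j ∈ S, ∑ j' ∈ S, r1 j j' N, ?_, ?_⟩
    · have := tendsto_finsetSum S fun j _ => tendsto_finsetSum S fun j' _ => hr1 j j'
      simpa using this
    · intro i N
      let χ : J → J → (Fin k → ℕ) → ℝ := fun j j' m => if j ≠ j' ∧ |ψ j m - ψ j' m| < D then 1 else 0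
      have hχ0 : ∀ j j' m, 0 ≤ χ j j' m := by
        intro j j' m
        simp only [χ]
        split_ifs <;> norm_num
      have h1 : ∀ m, (if R i m then (1 : ℝ) else 0) ≤ ∑ j ∈ S, ∑ j' ∈ S, χ j j' m := by
        intro m
        split_ifs with h
        · obtain ⟨j, hj, j', hj', hne, -, hlt⟩ := h
          have hjS := Finset.mem_of_mem_filter j hj
          have hjS' := Finset.mem_of_mem_filter j' hj'
          have e : χ j j' m = 1 := if_pos ⟨hne, hlt⟩
          rw [← e]
          refine le_trans ?_ (Finset.single_le_sum (f := fun j => ∑ j' ∈ S, χ j j' m)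
            (fun j _ => Finset.sum_nonneg fun j' _ => hχ0 j j' m) hjS)
          exact Finset.single_le_sum (f := fun j' => χ j j' m) (fun j' _ => hχ0 j j' m) hjS'
        · exact Finset.sum_nonneg fun j _ => Finset.sum_nonneg fun j' _ => hχ0 j j' m
      refine (bx_mono h1).trans ?_
      rw [bx_sum]
      refine Finset.sum_le_sum fun j hj => ?_
      rw [bx_sum]
      refine Finset.sum_le_sum fun j' hj' => ?_
      by_cases hne : j = j'
      · have e : ∀ m, χ j j' m = 0 := fun m => if_neg fun h => h.1 hne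
        have e2 : r1 j j' N = 0 := dif_neg fun h => h.2.2 hne
        rw [e2]
        have : χ j j' = fun _ => 0 := funext e
        rw [this]
        exact bx_const_le le_rfl
      · have h : j ∈ S ∧ j' ∈ S ∧ j ≠ j' := ⟨hj, hj', hne⟩
        have e2 : r1 j j' N = (N (hco j h.1 j' h.2.1 h.2.2).choose : ℝ)⁻¹ *
          (2 * D / |v j (hco j h.1 j' h.2.1 h.2.2).choose -
            v j' (hco j h.1 j' h.2.1 h.2.2).choose| + 1) := dif_pos h
        rw [e2]
        have hsp := (hco j h.1 j' h.2.1 h.2.2).choose_spec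
        have := bx_strip (N := N) (c j - c j') D (fun l => v j l - v j' l)
          (hco j h.1 j' h.2.1 h.2.2).choose (sub_ne_zero.2 hsp) hD.le
        refine le_trans (le_of_eq ?_) this
        congr 1
        funext m
        have e3 : ψ j m - ψ j' m = c j - c j' + ∑ l, (m l : ℝ) * (v j l - v j' l) := by
          simp only [hψ, mul_sub, Finset.sum_sub_distrib]
          ring
        simp only [χ]
        rw [e3]
        simp only [ne_eq, hne, not_false_eq_true, true_and]
  -- conclusion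
  filter_upwards [hZall] with x hx
  rw [Metric.tendsto_atTop]
  intro ε hε
  have hΛne : Λ.Nonempty := by
    obtain ⟨j, hj⟩ := hS
    obtain ⟨l, hl⟩ := Function.ne_iff.1 (hv0 j hj)
    exact ⟨l, Finset.mem_filter.2 ⟨Finset.mem_univ _, j, Finset.mem_filter.2 ⟨hj, hl⟩⟩⟩
  -- small quantities
  set δ : ℝ := ε / 8 with hδ
  have hδ0 : 0 < δ := by positivity
  have hZs : ∃ l0 : ℕ, ∀ l ≥ l0, ∀ i ∈ Λ, 2 ^ k * Z i l x < δ * δ := by
    have h1 : ∀ i ∈ Λ, ∀ᶠ l in atTop, 2 ^ k * Z i l x < δ * δ := by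
      intro i hi
      have := (hx i hi).const_mul (2 ^ k : ℝ)
      rw [mul_zero] at this
      exact (tendsto_order.1 this).2 _ (by positivity)
    have h2 := (Finset.eventually_all Λ).2 h1
    obtain ⟨l0, hl0⟩ := eventually_atTop.1 h2
    exact ⟨l0, hl0⟩
  obtain ⟨l0, hl0⟩ := hZs
  obtain ⟨l1, hl1⟩ := exists_nat_gt (2 * (p : ℝ) / δ)
  obtain ⟨N1, hN1⟩ := eventually_atTop.1 ((tendsto_order.1 hr0).2 δ hδ0)
  set L0 := max l0 l1 with hL0
  refine ⟨N1 ⊔ fun _ => (L0 + 1) ^ p, fun N hN => ?_⟩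
  have hNN1 : N1 ≤ N := le_sup_left.trans hN
  have hNL : ∀ i, (L0 + 1) ^ p ≤ N i := fun i => (le_sup_right.trans hN : _ ≤ N) i
  have hNpos : ∀ i, 0 < N i := fun i => lt_of_lt_of_le (by positivity) (hNL i)
  obtain ⟨i0, hi0, hmax⟩ := Finset.exists_max_image Λ N hΛne
  set n := N i0 with hn
  have hnpos : 0 < n := hNpos i0
  set l := Nat.findGreatest (fun l => (l + 1) ^ p ≤ n) n with hl
  have hPl : (l + 1) ^ p ≤ n :=
    Nat.findGreatest_spec (P := fun l => (l + 1) ^ p ≤ n) (Nat.zero_le n) (by simpa using Nat.succ_le_of_lt hnpos)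
  have hlL : L0 ≤ l := by
    refine Nat.le_findGreatest ?_ (hNL i0)
    have h1 : L0 + 1 ≤ (L0 + 1) ^ p := Nat.le_self_pow (by omega) _
    have h2 := hNL i0
    omega
  have hlt : n < (l + 2) ^ p := by
    by_contra hcon
    rw [not_lt] at hcon
    have h1 : l + 1 ≤ n := (Nat.le_self_pow (by omega) _).trans hPl
    exact Nat.findGreatest_is_greatest (P := fun l => (l + 1) ^ p ≤ n) (k := l + 1)
      (Nat.lt_succ_self l) h1 hcon
  have hl0' : l0 ≤ l := (le_max_left _ _).trans hlL
  have hl1' : l1 ≤ l := (le_max_right _ _).trans hlL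
  -- reduction to the fibres
  have hA : |bx k N fun m => w m x * ∏ j ∈ S, u j m x| ≤ bx k N fun m => |B i0 n m x| := by
    rw [bx_avg i0]
    refine bx_abs.trans (bx_mono fun m => ?_)
    have e1 : ∀ t : ℕ, w (Function.update m i0 t) x * ∏ j ∈ S, u j (Function.update m i0 t) x =
        (∏ j ∈ S.filter (fun j => ¬ v j i0 ≠ 0), u j m x) * y i0 (Function.update m i0 t) x := by
      intro t
      simp only [hy, hS1]
      rw [← Finset.prod_filter_mul_prod_filter_not S (fun j => v j i0 ≠ 0)]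
      have e2 : ∏ j ∈ S.filter (fun j => ¬ v j i0 ≠ 0), u j (Function.update m i0 t) x =
          ∏ j ∈ S.filter (fun j => ¬ v j i0 ≠ 0), u j m x := by
        refine Finset.prod_congr rfl fun j hj => ?_
        have h1 := Finset.mem_filter.1 hj
        rw [hind j h1.1 i0 (not_not.1 h1.2) m t]
      rw [e2]
      ring
    simp only [e1]
    rw [← Finset.mul_sum]
    have e3 : (N i0 : ℝ)⁻¹ * ((∏ j ∈ S.filter (fun j => ¬ v j i0 ≠ 0), u j m x) *
        ∑ t ∈ Finset.range (N i0), y i0 (Function.update m i0 t) x) =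
        (∏ j ∈ S.filter (fun j => ¬ v j i0 ≠ 0), u j m x) * B i0 n m x := by
      simp only [hB, hn]
      ring
    rw [e3, abs_mul, Finset.abs_prod]
    refine mul_le_of_le_one_left (abs_nonneg _) (Finset.prod_le_one (fun l _ => abs_nonneg _) fun l hl' => ?_)
    exact (hu l (Finset.mem_of_mem_filter l hl') m).bdd x
  -- the fibres
  have hfib : ∀ m, |B i0 n m x| ≤ (if R i0 m then (1 : ℝ) else 0) +
      (2 * δ + δ⁻¹ * q i0 ((l + 1) ^ p) m x) := by
    intro m
    have hqq := hq0 i0 ((l + 1) ^ p) m x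
    by_cases hRm : R i0 m
    · rw [if_pos hRm]
      have h1 := hB1 i0 n m x
      have h2 : 0 ≤ δ⁻¹ * q i0 ((l + 1) ^ p) m x := by positivity
      linarith
    · rw [if_neg hRm]
      have h1 := avg_diff (y := fun t => y i0 (Function.update m i0 t) x) (fun t => hy1 _ _ _)
        (n := n) (n' := (l + 1) ^ p) (by positivity) hPl
      have h2 := ratio_le p l n hPl hlt
      have h3 : 2 * (p : ℝ) / (l + 2) ≤ δ := by
        rw [div_le_iff₀ (by positivity)]
        have h4 : 2 * (p : ℝ) / δ < l := hl1.trans_le (by exact_mod_cast hl1')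
        rw [div_lt_iff₀ hδ0] at h4
        nlinarith
      have h5 : |B i0 n m x - B i0 ((l + 1) ^ p) m x| ≤ δ := (h1.trans h2).trans h3
      have h6 : |B i0 ((l + 1) ^ p) m x| ≤ δ + δ⁻¹ * q i0 ((l + 1) ^ p) m x := by
        have e : q i0 ((l + 1) ^ p) m x = (B i0 ((l + 1) ^ p) m x) ^ 2 := by
          simp only [hq, if_neg hRm]
        rw [e, ← sq_abs]
        set z := |B i0 ((l + 1) ^ p) m x|
        have hz : 0 ≤ z := abs_nonneg _
        have h7 : z * δ ≤ δ * δ + z ^ 2 := by nlinarith [sq_nonneg (z - δ)]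
        have h8 : z = δ⁻¹ * (z * δ) := by field_simp
        have h9 : δ + δ⁻¹ * z ^ 2 = δ⁻¹ * (δ * δ + z ^ 2) := by field_simp
        rw [h9]
        conv_lhs => rw [h8]
        gcongr
      have h10 := abs_sub_abs_le_abs_sub (B i0 n m x) (B i0 ((l + 1) ^ p) m x)
      linarith
  -- the average of q
  have hqavg : bx k N (fun m => q i0 ((l + 1) ^ p) m x) ≤ 2 ^ k * Z i0 l x := by
    set T : Finset (Fin k) := Finset.univ.filter fun i => i ∉ Λ with hT
    have h1 := bx_indep_set (N := N) hNpos (q := fun m => q i0 ((l + 1) ^ p) m x) T (by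
      intro i hi m t
      exact hqi' i0 hi0 _ m i t x (Finset.mem_filter.1 hi).2)
    rw [h1]
    set N' : Fin k → ℕ := fun i => if i ∈ T then 1 else N i with hN'
    have hN'pos : ∀ i, 0 < N' i := by
      intro i
      simp only [hN']
      split_ifs
      · exact one_pos
      · exact hNpos i
    have hN'lt : ∀ i, N' i < (l + 2) ^ p := by
      intro i
      simp only [hN']
      split_ifs with h
      · exact Nat.one_lt_pow (by omega) (by omega)
      · have : i ∈ Λ := by
          by_contra hcon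
          exact h (Finset.mem_filter.2 ⟨Finset.mem_univ _, hcon⟩)
        exact (hmax i this).trans_lt hlt
    set e : Fin k → ℕ := fun i => Nat.log 2 (N' i) + 1 with he
    have h2 := bx_dyadic (N := N') (M := fun i => 2 ^ (e i)) hN'pos
      (fun i => (Nat.lt_pow_succ_log_self one_lt_two (N' i)).le)
      (fun i => by
        simp only [he]
        rw [pow_succ, mul_comm]
        exact Nat.mul_le_mul_left 2 (Nat.pow_log_le_self 2 (hN'pos i).ne'))
      (q := fun m => q i0 ((l + 1) ^ p) m x) (fun m => hq0 _ _ _ _)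
    refine h2.trans ?_
    refine mul_le_mul_of_nonneg_left ?_ (by positivity)
    simp only [hZ]
    refine Finset.single_le_sum (f := fun e : Fin k → ℕ =>
      bx k (fun r => 2 ^ (e r)) (fun m => q i0 ((l + 1) ^ p) m x))
      (fun e _ => bx_nonneg fun m => hq0 _ _ _ _) ?_
    rw [Fintype.mem_piFinset]
    intro i
    rw [Finset.mem_range]
    have h3 : Nat.log 2 (N' i) < p * (l + 2) := by
      refine Nat.log_lt_of_lt_pow (hN'pos i).ne' ?_
      refine (hN'lt i).trans_le ?_
      rw [mul_comm, pow_mul]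
      exact Nat.pow_le_pow_left (Nat.lt_two_pow_self).le p
    simp only [he, hE]
    omega
  rw [Real.dist_eq, sub_zero]
  calc |bx k N fun m => w m x * ∏ j ∈ S, u j m x| ≤ bx k N fun m => |B i0 n m x| := hA
    _ ≤ bx k N (fun m => (if R i0 m then (1 : ℝ) else 0) +
      (2 * δ + δ⁻¹ * q i0 ((l + 1) ^ p) m x)) := bx_mono hfib
    _ = bx k N (fun m => if R i0 m then (1 : ℝ) else 0) +
      (bx k N (fun _ => 2 * δ) + δ⁻¹ * bx k N (fun m => q i0 ((l + 1) ^ p) m x)) := by
        rw [bx_add, bx_add, bx_mul k N δ⁻¹]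
    _ ≤ δ + (2 * δ + δ⁻¹ * (2 ^ k * Z i0 l x)) := by
        have h1 := (hrR i0 N).trans (hN1 N hNN1).le
        have h2 : bx k N (fun _ => 2 * δ) ≤ 2 * δ := bx_const_le (by positivity)
        have h3 : δ⁻¹ * bx k N (fun m => q i0 ((l + 1) ^ p) m x) ≤ δ⁻¹ * (2 ^ k * Z i0 l x) := by
          gcongr
        linarith
    _ ≤ δ + (2 * δ + δ) := by
        have h1 := hl0 l hl0' i0 hi0
        have h2 : δ⁻¹ * (2 ^ k * Z i0 l x) ≤ δ := by
          rw [inv_mul_le_iff₀ hδ0]
          exact h1.le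
        linarith
    _ < ε := by
        rw [hδ]
        linarith

end Pool.Agent.Zk89.KS
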