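import Pool.Agent.Zk89.KS.Box

/-!
# Filtrations, functions of finite range, orthogonality
-/

set_option autoImplicit false

open Filter Topology MeasureTheory

noncomputable section

namespace Pool.Agent.Zk89.KS

variable {X : Type*} [m0 : MeasurableSpace X]

/-- `h` is bounded by one, measurable at time `b` and orthogonal to the time `a`. -/
structure FR (μ : Measure X) (F : ℝ → MeasurableSpace X) (a b : ℝ) (h : X → ℝ) : Prop where
  meas : Measurable[F b] h
  bdd : ∀ x, |h x| ≤ 1
  orth : ∀ B, MeasurableSet[F a] B → ∫ x in B, h x ∂μ = 0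

variable {μ : Measure X} [IsProbabilityMeasure μ] {F : ℝ → MeasurableSpace X}

theorem orth_mul (hle : ∀ s, F s ≤ m0) {a b : ℝ} {h w : X → ℝ} (hh : FR μ F a b h)
    (hw : Measurable[F a] w) (hw1 : ∀ x, |w x| ≤ 1) : ∫ x, w x * h x ∂μ = 0 := by
  have hhm : Measurable h := hh.meas.mono (hle b) le_rfl
  have hwm : Measurable w := hw.mono (hle a) le_rfl
  have hhi : Integrable h μ := Integrable.of_bound hhm.aestronglyMeasurable 1
    (Eventually.of_forall fun x => by rw [Real.norm_eq_abs]; exact hh.bdd x)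
  have hwi : Integrable (w * h) μ := Integrable.of_bound (hwm.mul hhm).aestronglyMeasurable 1
    (Eventually.of_forall fun x => by
      rw [Real.norm_eq_abs, Pi.mul_apply, abs_mul]
      exact mul_le_one₀ (hw1 x) (abs_nonneg _) (hh.bdd x))
  have h0 : μ[h|F a] =ᵐ[μ] 0 := by
    symm
    refine ae_eq_condExp_of_forall_setIntegral_eq (hle a) hhi ?_ ?_ ?_
    · intro s _ _
      exact integrableOn_zero
    · intro s hs _
      rw [hh.orth s hs]
      simp
    · exact aestronglyMeasurable_zero
  have h1 : μ[w * h|F a] =ᵐ[μ] 0 := by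
    have := condExp_mul_of_stronglyMeasurable_left (m := F a) (μ := μ)
      (hw.stronglyMeasurable) hwi hhi
    refine this.trans ?_
    filter_upwards [h0] with x hx
    simp [hx]
  have h2 := integral_condExp (μ := μ) (f := w * h) (hle a)
  have h3 : ∫ x, (μ[w * h|F a]) x ∂μ = 0 := by
    rw [integral_congr_ae h1]
    simp
  rw [h3] at h2
  exact h2.symm

/-- A product of functions of finite range at times which are far from each other. -/
theorem prod_zero {L : Type*} [Fintype L] [DecidableEq L] [Nonempty L] (hle : ∀ s, F s ≤ m0)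
    (hmono : Monotone F) {a b D : ℝ} (hab : b - a ≤ D) {T : L → ℝ} {u : L → X → ℝ}
    (hu : ∀ l, FR μ F (a + T l) (b + T l) (u l)) (hT : ∀ l l', l ≠ l' → D ≤ |T l - T l'|)
    {w : X → ℝ} (hw : ∀ s, Measurable[F s] w) (hw1 : ∀ x, |w x| ≤ 1) :
    ∫ x, w x * ∏ l, u l x ∂μ = 0 := by
  obtain ⟨l0, -, hmax⟩ := Finset.exists_max_image Finset.univ T ⟨Classical.arbitrary L, Finset.mem_univ _⟩
  have hlt : ∀ l, l ≠ l0 → T l + b ≤ T l0 + a := by
    intro l hl
    have h1 := hT l0 l (Ne.symm hl)
    have h2 := hmax l (Finset.mem_univ l)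
    rw [abs_of_nonneg (by linarith)] at h1
    linarith
  have hW : Measurable[F (a + T l0)] fun x => w x * ∏ l ∈ Finset.univ.erase l0, u l x := by
    refine (hw _).mul ?_
    refine Finset.measurable_prod _ fun l hl => ?_
    exact (hu l).meas.mono (hmono (by linarith [hlt l (Finset.ne_of_mem_erase hl)])) le_rfl
  have hW1 : ∀ x, |w x * ∏ l ∈ Finset.univ.erase l0, u l x| ≤ 1 := by
    intro x
    rw [abs_mul, Finset.abs_prod]
    exact mul_le_one₀ (hw1 x) (Finset.prod_nonneg fun l _ => abs_nonneg _)
      (Finset.prod_le_one (fun l _ => abs_nonneg _) fun l _ => (hu l).bdd x)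
  have := orth_mul hle (hu l0) hW hW1
  rw [← this]
  congr 1
  funext x
  rw [← Finset.mul_prod_erase _ _ (Finset.mem_univ l0)]
  ring

/-- The constant of the second moment. -/
def cst {ι : Type*} [Fintype ι] (v : ι → ℝ) (D : ℝ) : ℝ :=
  ∑ i, ∑ i', ((2 * D / |v i'| + 1) + 2 * (2 * D / |v i - v i'| + 1))

theorem cst_nonneg {ι : Type*} [Fintype ι] (v : ι → ℝ) {D : ℝ} (hD : 0 ≤ D) : 0 ≤ cst v D :=
  Finset.sum_nonneg fun i _ => Finset.sum_nonneg fun i' _ => by positivity

/-- The second moment of a one parameter average. -/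
theorem one_par {ι : Type*} [Fintype ι] [DecidableEq ι] [Nonempty ι] (hle : ∀ s, F s ≤ m0)
    (hmono : Monotone F) {a b D : ℝ} (hab : b - a ≤ D) (hD : 0 < D)
    {v o : ι → ℝ} (hv : ∀ i, v i ≠ 0) (hoff : ∀ i i', i ≠ i' → v i = v i' → D ≤ |o i - o i'|)
    {u : ι → ℕ → X → ℝ} (hu : ∀ i (t : ℕ), FR μ F (a + (o i + t * v i)) (b + (o i + t * v i)) (u i t))
    {w : ℕ → X → ℝ} (hw : ∀ t s, Measurable[F s] (w t)) (hw1 : ∀ t x, |w t x| ≤ 1) (n : ℕ) :
    ∫ x, ((n : ℝ)⁻¹ * ∑ t ∈ Finset.range n, w t x * ∏ i, u i t x) ^ 2 ∂μ ≤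
      (n : ℝ)⁻¹ * cst v D := by
  rcases Nat.eq_zero_or_pos n with rfl | hn
  · simp
  have hn' : (0 : ℝ) < n := by exact_mod_cast hn
  set Y : ℕ → X → ℝ := fun t x => w t x * ∏ i, u i t x with hY
  have hYm : ∀ t, Measurable (Y t) := by
    intro t
    refine ((hw t 0).mono (hle 0) le_rfl).mul (Finset.measurable_prod _ fun i _ => ?_)
    exact (hu i t).meas.mono (hle _) le_rfl
  have hY1 : ∀ t x, |Y t x| ≤ 1 := by
    intro t x
    rw [hY]
    simp only
    rw [abs_mul, Finset.abs_prod]
    exact mul_le_one₀ (hw1 t x) (Finset.prod_nonneg fun l _ => abs_nonneg _)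
      (Finset.prod_le_one (fun l _ => abs_nonneg _) fun l _ => (hu l t).bdd x)
  have hYYi : ∀ t t', Integrable (fun x => Y t x * Y t' x) μ := fun t t' =>
    Integrable.of_bound ((hYm t).mul (hYm t')).aestronglyMeasurable 1
      (Eventually.of_forall fun x => by
        rw [Real.norm_eq_abs, abs_mul]
        exact mul_le_one₀ (hY1 t x) (abs_nonneg _) (hY1 t' x))
  -- expansion
  have hexp : ∫ x, ((n : ℝ)⁻¹ * ∑ t ∈ Finset.range n, Y t x) ^ 2 ∂μ =
      ((n : ℝ)⁻¹) ^ 2 * ∑ t ∈ Finset.range n, ∑ t' ∈ Finset.range n, ∫ x, Y t x * Y t' x ∂μ := by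
    have e1 : (fun x => ((n : ℝ)⁻¹ * ∑ t ∈ Finset.range n, Y t x) ^ 2) = fun x =>
        ((n : ℝ)⁻¹) ^ 2 * ∑ t ∈ Finset.range n, ∑ t' ∈ Finset.range n, Y t x * Y t' x := by
      funext x
      rw [mul_pow, sq (∑ t ∈ Finset.range n, Y t x), Finset.sum_mul_sum]
    rw [e1, integral_const_mul, integral_finsetSum _ fun t _ => integrable_finsetSum _ fun t' _ => hYYi t t']
    congr 1
    refine Finset.sum_congr rfl fun t _ => ?_
    rw [integral_finsetSum _ fun t' _ => hYYi t t']
  rw [hexp]
  -- bad pairs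
  let T : ι → ℕ → ℝ := fun i t => o i + t * v i
  let B1 : ι → ι → ℕ → ℕ → ℝ := fun i i' t t' => if |T i t - T i' t'| < D then 1 else 0
  let B2 : ι → ι → ℕ → ℝ := fun i i' t => if i ≠ i' ∧ |T i t - T i' t| < D then 1 else 0
  have hB1 : ∀ i i' t t', 0 ≤ B1 i i' t t' := by
    intro i i' t t'
    simp only [B1]
    split_ifs <;> norm_num
  have hB2 : ∀ i i' t, 0 ≤ B2 i i' t := by
    intro i i' t
    simp only [B2]
    split_ifs <;> norm_num
  have hpair : ∀ t t', ∫ x, Y t x * Y t' x ∂μ ≤
      ∑ i, ∑ i', (B1 i i' t t' + (B2 i i' t + B2 i i' t')) := by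
    intro t t'
    by_cases hgood : (∀ i i', D ≤ |T i t - T i' t'|) ∧ (∀ i i', i ≠ i' → D ≤ |T i t - T i' t|) ∧
        ∀ i i', i ≠ i' → D ≤ |T i t' - T i' t'|
    · obtain ⟨g1, g2, g3⟩ := hgood
      have hz := prod_zero (μ := μ) (L := ι ⊕ ι) hle hmono hab
        (T := Sum.elim (fun i => T i t) (fun i => T i t'))
        (u := Sum.elim (fun i => u i t) (fun i => u i t'))
        (by
          rintro (i | i)
          · exact hu i t
          · exact hu i t')
        (by
          rintro (i | i) (i' | i') hne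
          · exact g2 i i' fun e => hne (by rw [e])
          · exact g1 i i'
          · have := g1 i' i
            rw [abs_sub_comm] at this
            exact this
          · exact g3 i i' fun e => hne (by rw [e]))
        (w := fun x => w t x * w t' x) (fun s => (hw t s).mul (hw t' s))
        (fun x => by
          rw [abs_mul]
          exact mul_le_one₀ (hw1 t x) (abs_nonneg _) (hw1 t' x))
      have e : (fun x => Y t x * Y t' x) = fun x => (w t x * w t' x) *
          ∏ l, (Sum.elim (fun i => u i t) (fun i => u i t') : ι ⊕ ι → X → ℝ) l x := by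
        funext x
        rw [Fintype.prod_sum_type, hY]
        simp only [Sum.elim_inl, Sum.elim_inr]
        ring
      rw [e, hz]
      exact Finset.sum_nonneg fun i _ => Finset.sum_nonneg fun i' _ =>
        add_nonneg (hB1 _ _ _ _) (add_nonneg (hB2 _ _ _) (hB2 _ _ _))
    · have hle1 : ∫ x, Y t x * Y t' x ∂μ ≤ 1 := by
        calc ∫ x, Y t x * Y t' x ∂μ ≤ ∫ _x, (1 : ℝ) ∂μ := by
              refine integral_mono (hYYi t t') (integrable_const _) fun x => ?_
              refine (le_abs_self _).trans ?_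
              rw [abs_mul]
              exact mul_le_one₀ (hY1 t x) (abs_nonneg _) (hY1 t' x)
          _ = 1 := by simp
      refine hle1.trans ?_
      have hsingle : ∀ i i', B1 i i' t t' + (B2 i i' t + B2 i i' t') ≤
          ∑ i, ∑ i', (B1 i i' t t' + (B2 i i' t + B2 i i' t')) := by
        intro i i'
        refine le_trans ?_ (Finset.single_le_sum (f := fun i => ∑ i', (B1 i i' t t' + (B2 i i' t + B2 i i' t')))
          (fun i _ => Finset.sum_nonneg fun i' _ =>
            add_nonneg (hB1 _ _ _ _) (add_nonneg (hB2 _ _ _) (hB2 _ _ _))) (Finset.mem_univ i))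
        exact Finset.single_le_sum (f := fun i' => (B1 i i' t t' + (B2 i i' t + B2 i i' t')))
          (fun i' _ => add_nonneg (hB1 _ _ _ _) (add_nonneg (hB2 _ _ _) (hB2 _ _ _))) (Finset.mem_univ i')
      have hcase : ∃ i i', 1 ≤ B1 i i' t t' + (B2 i i' t + B2 i i' t') := by
        by_contra hcon
        push Not at hcon
        apply hgood
        refine ⟨fun i i' => ?_, fun i i' hne => ?_, fun i i' hne => ?_⟩
        · by_contra hlt
          have h1 : B1 i i' t t' = 1 := if_pos (not_le.1 hlt)
          have := hcon i i'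
          linarith [hB2 i i' t, hB2 i i' t']
        · by_contra hlt
          have h1 : B2 i i' t = 1 := if_pos ⟨hne, not_le.1 hlt⟩
          have := hcon i i'
          linarith [hB1 i i' t t', hB2 i i' t']
        · by_contra hlt
          have h1 : B2 i i' t' = 1 := if_pos ⟨hne, not_le.1 hlt⟩
          have := hcon i i'
          linarith [hB1 i i' t t', hB2 i i' t]
      obtain ⟨i, i', h1⟩ := hcase
      exact h1.trans (hsingle i i')
  -- counting
  have hc1 : ∀ i i' t, ∑ t' ∈ Finset.range n, B1 i i' t t' ≤ 2 * D / |v i'| + 1 := by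
    intro i i' t
    have h1 : ∀ t' : ℕ, B1 i i' t t' = if |(o i' - T i t) + t' * v i'| < D then 1 else 0 := by
      intro t'
      show (if |T i t - T i' t'| < D then (1 : ℝ) else 0) = _
      rw [abs_sub_comm]
      have : T i' t' - T i t = (o i' - T i t) + t' * v i' := by
        show o i' + t' * v i' - T i t = _
        ring
      rw [this]
    simp only [h1]
    rw [Finset.sum_ite, Finset.sum_const_zero, add_zero, Finset.sum_const, nsmul_eq_mul, mul_one]
    exact card_strip _ _ _ _ (hv i') hD.le
  have hc2 : ∀ i i', ∑ t ∈ Finset.range n, B2 i i' t ≤ 2 * D / |v i - v i'| + 1 := by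
    intro i i'
    by_cases hne : i = i'
    · have : ∀ t, B2 i i' t = 0 := fun t => if_neg fun h => h.1 hne
      simp only [this, Finset.sum_const_zero]
      positivity
    by_cases hvv : v i = v i'
    · have : ∀ t, B2 i i' t = 0 := by
        intro t
        refine if_neg fun h => ?_
        have h1 := hoff i i' hne hvv
        have h2 := h.2
        have h3 : T i t - T i' t = o i - o i' := by
          show o i + t * v i - (o i' + t * v i') = _
          rw [hvv]
          ring
        rw [h3] at h2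
        linarith
      simp only [this, Finset.sum_const_zero]
      positivity
    · have h1 : ∀ t : ℕ, B2 i i' t = if |(o i - o i') + t * (v i - v i')| < D then 1 else 0 := by
        intro t
        show (if i ≠ i' ∧ |T i t - T i' t| < D then (1 : ℝ) else 0) = _
        have : T i t - T i' t = (o i - o i') + t * (v i - v i') := by
          show o i + t * v i - (o i' + t * v i') = _
          ring
        rw [this]
        simp only [ne_eq, hne, not_false_eq_true, true_and]
      simp only [h1]
      rw [Finset.sum_ite, Finset.sum_const_zero, add_zero, Finset.sum_const, nsmul_eq_mul, mul_one]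
      exact card_strip _ _ _ _ (sub_ne_zero.2 hvv) hD.le
  have hsum : ∑ t ∈ Finset.range n, ∑ t' ∈ Finset.range n, ∫ x, Y t x * Y t' x ∂μ ≤
      n * cst v D := by
    calc ∑ t ∈ Finset.range n, ∑ t' ∈ Finset.range n, ∫ x, Y t x * Y t' x ∂μ
        ≤ ∑ t ∈ Finset.range n, ∑ t' ∈ Finset.range n,
          ∑ i, ∑ i', (B1 i i' t t' + (B2 i i' t + B2 i i' t')) :=
          Finset.sum_le_sum fun t _ => Finset.sum_le_sum fun t' _ => hpair t t'
      _ = ∑ i, ∑ i', ∑ t ∈ Finset.range n, ∑ t' ∈ Finset.range n,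
          (B1 i i' t t' + (B2 i i' t + B2 i i' t')) := by
          have h1 : ∀ t, ∑ t' ∈ Finset.range n, ∑ i, ∑ i', (B1 i i' t t' + (B2 i i' t + B2 i i' t'))
              = ∑ i, ∑ i', ∑ t' ∈ Finset.range n, (B1 i i' t t' + (B2 i i' t + B2 i i' t')) := by
            intro t
            rw [Finset.sum_comm]
            refine Finset.sum_congr rfl fun i _ => ?_
            rw [Finset.sum_comm]
          simp only [h1]
          rw [Finset.sum_comm]
          refine Finset.sum_congr rfl fun i _ => ?_
          rw [Finset.sum_comm]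
      _ ≤ ∑ i, ∑ i', (n * ((2 * D / |v i'| + 1) + 2 * (2 * D / |v i - v i'| + 1))) := by
          refine Finset.sum_le_sum fun i _ => Finset.sum_le_sum fun i' _ => ?_
          have e1 : ∑ t ∈ Finset.range n, ∑ t' ∈ Finset.range n,
              (B1 i i' t t' + (B2 i i' t + B2 i i' t')) =
              ∑ t ∈ Finset.range n, ∑ t' ∈ Finset.range n, B1 i i' t t' +
              (n * ∑ t ∈ Finset.range n, B2 i i' t + n * ∑ t ∈ Finset.range n, B2 i i' t) := by
            simp only [Finset.sum_add_distrib, Finset.sum_const, Finset.card_range, nsmul_eq_mul]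
            rw [← Finset.mul_sum]
          rw [e1]
          have e2 : ∑ t ∈ Finset.range n, ∑ t' ∈ Finset.range n, B1 i i' t t' ≤
              n * (2 * D / |v i'| + 1) := by
            refine (Finset.sum_le_sum fun t _ => hc1 i i' t).trans ?_
            rw [Finset.sum_const, Finset.card_range, nsmul_eq_mul]
          have e3 := mul_le_mul_of_nonneg_left (hc2 i i') hn'.le
          linarith
      _ = n * cst v D := by
          rw [cst, Finset.mul_sum]
          refine Finset.sum_congr rfl fun i _ => ?_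
          rw [Finset.mul_sum]
  calc ((n : ℝ)⁻¹) ^ 2 * ∑ t ∈ Finset.range n, ∑ t' ∈ Finset.range n, ∫ x, Y t x * Y t' x ∂μ
      ≤ ((n : ℝ)⁻¹) ^ 2 * (n * cst v D) := by gcongr
    _ = (n : ℝ)⁻¹ * cst v D := by
        field_simp

end Pool.Agent.Zk89.KS
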